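import Pool.Agent.Helper1.SD.Defs2

/-!
The section of a good cone is not combinatorially equivalent to a simplex (module SD-2d).
-/

set_option autoImplicit false

namespace Pool.Agent.Helper1.SD

open Matrix

/-- exposed faces of a section of a self-dual cone -/
theorem exposed_slice_iff' {N : ℕ} {K : Set (Fin N → ℝ)} {h : Fin N → ℝ} (hsd : dualOf K = K)
    (hpos : ∀ x ∈ K, x ≠ 0 → 0 < h ⬝ᵥ x) (F : Set (Fin N → ℝ)) (hF : F.Nonempty) :
    IsExposed ℝ (slice K h) F ↔ ∃ g ∈ K, F = slice (perpIn K g) h := by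
  constructor
  · intro hE
    obtain ⟨l, hl⟩ := hE hF
    obtain ⟨x0, hx0⟩ := hF
    obtain ⟨L, hL⟩ : ∃ L : Fin N → ℝ, ∀ x, l x = L ⬝ᵥ x := by
      refine ⟨fun i => l (Pi.single i 1), fun x => ?_⟩
      conv_lhs => rw [pi_eq_sum_univ' x, map_sum]
      refine Finset.sum_congr rfl fun i _ => ?_
      rw [map_smul, smul_eq_mul, mul_comm]
    have hx0' := hx0
    rw [hl] at hx0'
    obtain ⟨hx0s, hmax⟩ := hx0'
    have hg : (l x0) • h - L ∈ K := by
      rw [← hsd]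
      intro x hx
      rw [sub_dotProduct, smul_dotProduct, smul_eq_mul]
      by_cases hx0 : x = 0
      · rw [hx0, dotProduct_zero, dotProduct_zero, mul_zero, sub_zero]
      have hp := hpos x hx hx0
      have h1 : (h ⬝ᵥ x)⁻¹ • x ∈ slice K h := by
        refine ⟨?_, ?_⟩
        · rw [← hsd] at hx ⊢
          intro g hg
          rw [smul_dotProduct, smul_eq_mul]
          exact mul_nonneg (inv_nonneg.2 hp.le) (hx g hg)
        · rw [dotProduct_smul, smul_eq_mul, inv_mul_cancel₀ hp.ne']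
      have h2 := hmax _ h1
      rw [hL, dotProduct_smul, smul_eq_mul, inv_mul_le_iff₀ hp] at h2
      linarith
    refine ⟨_, hg, ?_⟩
    rw [hl]
    ext x
    constructor
    · rintro ⟨hxs, hxm⟩
      refine ⟨⟨hxs.1, ?_⟩, hxs.2⟩
      have h3 : l x = l x0 := le_antisymm (hmax x hxs) (hxm x0 hx0s)
      rw [sub_dotProduct, smul_dotProduct, smul_eq_mul, hxs.2, mul_one, ← hL, h3, sub_self]
    · rintro ⟨⟨hxK, hgx⟩, hhx⟩
      refine ⟨⟨hxK, hhx⟩, fun y hy => ?_⟩
      rw [sub_dotProduct, smul_dotProduct, smul_eq_mul, hhx, mul_one, ← hL] at hgx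
      have := hmax y hy
      linarith
  · rintro ⟨g, hg, rfl⟩ _
    obtain ⟨x0, ⟨hx0K, hgx0⟩, hhx0⟩ := hF
    refine ⟨-(LinearMap.toContinuousLinearMap (dotProductBilin ℝ ℝ g)), ?_⟩
    have hval : ∀ x, (-(LinearMap.toContinuousLinearMap (dotProductBilin ℝ ℝ g)) :
        (Fin N → ℝ) →L[ℝ] ℝ) x = -(g ⬝ᵥ x) := fun x => rfl
    rw [← hsd] at hg
    ext x
    constructor
    · rintro ⟨⟨hxK, hgx⟩, hhx⟩
      refine ⟨⟨hxK, hhx⟩, fun y hy => ?_⟩
      rw [hval, hval, hgx]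
      have := hg y hy.1
      linarith
    · rintro ⟨hxs, hxm⟩
      refine ⟨⟨hxs.1, ?_⟩, hxs.2⟩
      have h3 := hxm x0 ⟨hx0K, hhx0⟩
      rw [hval, hval, hgx0] at h3
      have := hg x hxs.1
      linarith

/-- the order property separating the two face lattices -/
def NS (L : Type*) [LE L] : Prop :=
  ∃ X Y Z : L, (∃ V, ¬ X ≤ V) ∧ (∀ W, W ≤ X → W ≤ Y → ∀ V, W ≤ V) ∧
    (∀ W, W ≤ X → W ≤ Z → ∀ V, W ≤ V) ∧ (∀ W, Y ≤ W → Z ≤ W → ∀ V, V ≤ W)

theorem NS.of_orderIso {L L' : Type*} [LE L] [LE L'] (e : L ≃o L') (h : NS L) : NS L' := by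
  obtain ⟨X, Y, Z, ⟨V, hV⟩, h1, h2, h3⟩ := h
  refine ⟨e X, e Y, e Z, ⟨e V, fun h => hV (e.le_iff_le.1 h)⟩, ?_, ?_, ?_⟩
  · intro W hW1 hW2 V'
    have := h1 (e.symm W) (by rwa [← e.le_iff_le, e.apply_symm_apply])
      (by rwa [← e.le_iff_le, e.apply_symm_apply]) (e.symm V')
    rwa [← e.le_iff_le, e.apply_symm_apply, e.apply_symm_apply] at this
  · intro W hW1 hW2 V'
    have := h2 (e.symm W) (by rwa [← e.le_iff_le, e.apply_symm_apply])
      (by rwa [← e.le_iff_le, e.apply_symm_apply]) (e.symm V')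
    rwa [← e.le_iff_le, e.apply_symm_apply, e.apply_symm_apply] at this
  · intro W hW1 hW2 V'
    have := h3 (e.symm W) (by rwa [← e.le_iff_le, e.apply_symm_apply])
      (by rwa [← e.le_iff_le, e.apply_symm_apply]) (e.symm V')
    rwa [← e.le_iff_le, e.apply_symm_apply, e.apply_symm_apply] at this

section simplex

variable {M m : ℕ} {v : Fin (m + 1) → (Fin M → ℝ)}

theorem ns_exists_weights {x : Fin M → ℝ} (hx : x ∈ convexHull ℝ (Set.range v)) :
    ∃ w : Fin (m + 1) → ℝ, (∀ i, 0 ≤ w i) ∧ ∑ i, w i = 1 ∧ x = ∑ i, w i • v i := by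
  have hconv : Convex ℝ {x : Fin M → ℝ | ∃ w : Fin (m + 1) → ℝ, (∀ i, 0 ≤ w i) ∧ ∑ i, w i = 1 ∧
      x = ∑ i, w i • v i} := by
    rintro x ⟨w, hw0, hw1, rfl⟩ y ⟨w', hw0', hw1', rfl⟩ a b ha hb hab
    refine ⟨fun i => a * w i + b * w' i, fun i => ?_, ?_, ?_⟩
    · have := hw0 i
      have := hw0' i
      positivity
    · rw [Finset.sum_add_distrib, ← Finset.mul_sum, ← Finset.mul_sum, hw1, hw1', mul_one, mul_one,
        hab]
    · simp only [add_smul, mul_smul, Finset.sum_add_distrib, Finset.smul_sum]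
  refine convexHull_min ?_ hconv hx
  rintro _ ⟨i, rfl⟩
  refine ⟨fun j => if j = i then 1 else 0, fun j => ?_, ?_, ?_⟩
  · dsimp only
    split_ifs <;> norm_num
  · simp
  · simp

/-- a functional separating the vertex `v i` from the opposite facet -/
theorem ns_exists_functional (hv : AffineIndependent ℝ v) (i : Fin (m + 1)) :
    ∃ f : (Fin M → ℝ) →L[ℝ] ℝ, ∀ w : Fin (m + 1) → ℝ, ∑ j, w j = 1 →
      f (∑ j, w j • v j) = f (v i) - 1 + w i := by
  have hli := (affineIndependent_iff_linearIndependent_vsub ℝ v i).1 hv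
  obtain ⟨f, hf⟩ := LinearMap.exists_extend ((Module.Basis.span hli).constr ℝ (fun _ => (-1 : ℝ)))
  have key : ∀ j, j ≠ i → f (v j) = f (v i) - 1 := by
    intro j hj
    have h1 := LinearMap.congr_fun hf (Module.Basis.span hli ⟨j, hj⟩)
    rw [Module.Basis.constr_basis, LinearMap.comp_apply, Submodule.subtype_apply,
      Module.Basis.span_apply] at h1
    simp only [vsub_eq_sub, map_sub] at h1
    linarith
  refine ⟨LinearMap.toContinuousLinearMap f, fun w hw => ?_⟩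
  simp only [LinearMap.coe_toContinuousLinearMap', map_sum, map_smul, smul_eq_mul]
  rw [← Finset.add_sum_erase _ _ (Finset.mem_univ i)]
  rw [← Finset.add_sum_erase _ _ (Finset.mem_univ i)] at hw
  have h2 : ∑ x ∈ Finset.univ.erase i, w x * f (v x) =
      (∑ x ∈ Finset.univ.erase i, w x) * (f (v i) - 1) := by
    rw [Finset.sum_mul]
    exact Finset.sum_congr rfl fun j hj => by rw [key j (Finset.ne_of_mem_erase hj)]
  rw [h2]
  have h3 : ∑ x ∈ Finset.univ.erase i, w x = 1 - w i := by linarith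
  rw [h3]
  ring

/-- an exposed face containing a point with positive weight at `i` contains `v i` -/
theorem ns_vertex_mem {F : Set (Fin M → ℝ)} (hF : IsExposed ℝ (convexHull ℝ (Set.range v)) F)
    {w : Fin (m + 1) → ℝ} (hw0 : ∀ i, 0 ≤ w i) (hw1 : ∑ i, w i = 1)
    (hx : ∑ i, w i • v i ∈ F) {i : Fin (m + 1)} (hi : 0 < w i) : v i ∈ F := by
  obtain ⟨l, hl⟩ := hF ⟨_, hx⟩
  have hvQ : ∀ j, v j ∈ convexHull ℝ (Set.range v) := fun j =>
    subset_convexHull ℝ _ ⟨j, rfl⟩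
  have hx' := hx
  rw [hl] at hx' ⊢
  obtain ⟨hxQ, hmax⟩ := hx'
  refine ⟨hvQ i, fun y hy => (hmax y hy).trans ?_⟩
  by_contra hlt
  rw [not_le] at hlt
  have h1 : l (∑ j, w j • v j) = ∑ j, w j * l (v j) := by
    simp only [map_sum, map_smul, smul_eq_mul]
  have h2 : ∑ j, w j * l (v j) < ∑ j, w j * l (∑ j, w j • v j) := by
    refine Finset.sum_lt_sum (fun j _ => mul_le_mul_of_nonneg_left (hmax _ (hvQ j)) (hw0 j))
      ⟨i, Finset.mem_univ i, mul_lt_mul_of_pos_left hlt hi⟩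
  rw [← Finset.sum_mul, hw1, one_mul] at h2
  linarith

theorem not_NS_simplex (hv : AffineIndependent ℝ v) : ¬ NS (Face (convexHull ℝ (Set.range v))) := by
  rintro ⟨X, Y, Z, ⟨V, hV⟩, h1, h2, h3⟩
  have hvQ : ∀ j, v j ∈ convexHull ℝ (Set.range v) := fun j =>
    subset_convexHull ℝ _ ⟨j, rfl⟩
  have hX : X.1.Nonempty := by
    by_contra hne
    rw [Set.not_nonempty_iff_eq_empty] at hne
    exact hV (show X.1 ⊆ V.1 by rw [hne]; exact Set.empty_subset _)
  obtain ⟨x, hx⟩ := hX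
  have hxQ : x ∈ convexHull ℝ (Set.range v) := X.2.subset hx
  obtain ⟨w, hw0, hw1, rfl⟩ := ns_exists_weights hxQ
  obtain ⟨i, hi⟩ : ∃ i, 0 < w i := by
    by_contra hcon
    push Not at hcon
    have : ∑ i, w i ≤ 0 := Finset.sum_nonpos fun i _ => hcon i
    linarith
  have hvX : v i ∈ X.1 := ns_vertex_mem X.2 hw0 hw1 hx hi
  obtain ⟨f, hf⟩ := ns_exists_functional hv i
  -- the vertex face
  have hEv : IsExposed ℝ (convexHull ℝ (Set.range v)) {v i} := by
    intro _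
    refine ⟨f, ?_⟩
    ext z
    simp only [Set.mem_singleton_iff, Set.mem_ofPred_eq]
    constructor
    · rintro rfl
      refine ⟨hvQ i, fun y hy => ?_⟩
      obtain ⟨u, hu0, hu1, rfl⟩ := ns_exists_weights hy
      rw [hf u hu1]
      have : u i ≤ 1 := by
        rw [← hu1]
        exact Finset.single_le_sum (fun j _ => hu0 j) (Finset.mem_univ i)
      linarith
    · rintro ⟨hz, hmax⟩
      obtain ⟨u, hu0, hu1, rfl⟩ := ns_exists_weights hz
      have h4 := hmax _ (hvQ i)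
      rw [hf u hu1] at h4
      have h5 : ∀ j, j ≠ i → u j = 0 := by
        intro j hj
        have h6 : u j + u i ≤ 1 := by
          rw [← hu1, ← Finset.sum_pair hj]
          exact Finset.sum_le_sum_of_subset_of_nonneg (Finset.subset_univ _) fun k _ _ => hu0 k
        have := hu0 j
        linarith
      have h6 : u i = 1 := by
        rw [← hu1]
        exact (Finset.sum_eq_single i (fun j _ hj => h5 j hj) (by simp)).symm
      rw [Finset.sum_eq_single i (fun j _ hj => by rw [h5 j hj, zero_smul]) (by simp), h6,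
        one_smul]
  -- the opposite facet
  have hEf : IsExposed ℝ (convexHull ℝ (Set.range v))
      {x | x ∈ convexHull ℝ (Set.range v) ∧ f x = f (v i) - 1} := by
    rintro ⟨x0, hx0, hfx0⟩
    refine ⟨-f, ?_⟩
    have hmin : ∀ y ∈ convexHull ℝ (Set.range v), f (v i) - 1 ≤ f y := by
      intro y hy
      obtain ⟨u, hu0, hu1, rfl⟩ := ns_exists_weights hy
      rw [hf u hu1]
      have := hu0 i
      linarith
    ext z
    simp only [Set.mem_ofPred_eq, _root_.neg_apply, neg_le_neg_iff]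
    constructor
    · rintro ⟨hz, hfz⟩
      exact ⟨hz, fun y hy => by rw [hfz]; exact hmin y hy⟩
    · rintro ⟨hz, hm⟩
      exact ⟨hz, le_antisymm (by rw [← hfx0]; exact hm x0 hx0) (hmin z hz)⟩
  have hempty : IsExposed ℝ (convexHull ℝ (Set.range v)) (∅ : Set (Fin M → ℝ)) :=
    fun ⟨_, hx⟩ => hx.elim
  have hnot : ∀ T : Face (convexHull ℝ (Set.range v)),
      (∀ W : Face (convexHull ℝ (Set.range v)), W ≤ X → W ≤ T → ∀ V, W ≤ V) →
      T.1 ⊆ {x | x ∈ convexHull ℝ (Set.range v) ∧ f x = f (v i) - 1} := by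
    intro T hT z hz
    have hzQ := T.2.subset hz
    obtain ⟨u, hu0, hu1, rfl⟩ := ns_exists_weights hzQ
    refine ⟨hzQ, ?_⟩
    rw [hf u hu1]
    rcases (hu0 i).lt_or_eq with hlt | heq
    · exfalso
      have hvT : v i ∈ T.1 := ns_vertex_mem T.2 hu0 hu1 hz hlt
      have h4 := hT ⟨{v i}, hEv⟩ (show ({v i} : Set (Fin M → ℝ)) ⊆ X.1 from
        Set.singleton_subset_iff.2 hvX) (show ({v i} : Set (Fin M → ℝ)) ⊆ T.1 from
        Set.singleton_subset_iff.2 hvT) ⟨∅, hempty⟩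
      have h5 : ({v i} : Set (Fin M → ℝ)) ⊆ ∅ := h4
      exact h5 rfl
    · rw [← heq, add_zero]
  have h6 := h3 ⟨_, hEf⟩ (hnot Y h1) (hnot Z h2)
    ⟨convexHull ℝ (Set.range v), IsExposed.refl _⟩
  have h7 : convexHull ℝ (Set.range v) ⊆
    {x | x ∈ convexHull ℝ (Set.range v) ∧ f x = f (v i) - 1} := h6
  have h8 := (h7 (hvQ i)).2
  linarith

end simplex

section cone

variable {N : ℕ} {K : Set (Fin N → ℝ)}

theorem ns_add_mem (hsd : dualOf K = K) {x y : Fin N → ℝ} (hx : x ∈ K) (hy : y ∈ K) :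
    x + y ∈ K := by
  rw [← hsd] at hx hy ⊢
  intro g hg
  rw [add_dotProduct]
  exact add_nonneg (hx g hg) (hy g hg)

theorem ns_zero_mem (hsd : dualOf K = K) : (0 : Fin N → ℝ) ∈ K := by
  rw [← hsd]
  intro g _
  rw [zero_dotProduct]

theorem ns_smul_mem (hsd : dualOf K = K) {x : Fin N → ℝ} (hx : x ∈ K) {c : ℝ} (hc : 0 ≤ c) :
    c • x ∈ K := by
  rw [← hsd] at hx ⊢
  intro g hg
  rw [smul_dotProduct, smul_eq_mul]
  exact mul_nonneg hc (hx g hg)

theorem ns_nonneg (hsd : dualOf K = K) {x y : Fin N → ℝ} (hx : x ∈ K) (hy : y ∈ K) :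
    0 ≤ x ⬝ᵥ y := by
  rw [← hsd] at hx
  exact hx y hy

theorem ns_sum_mem (hsd : dualOf K = K) (s : Finset (Fin N → ℝ)) (hs : ∀ z ∈ s, z ∈ K) :
    ∑ z ∈ s, z ∈ K := by
  classical
  induction s using Finset.induction_on with
  | empty => simpa using ns_zero_mem hsd
  | insert a s ha ih =>
    rw [Finset.sum_insert ha]
    exact ns_add_mem hsd (hs a (Finset.mem_insert_self _ _))
      (ih fun z hz => hs z (Finset.mem_insert_of_mem hz))

/-- normalisation of a nonzero vector of a face -/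
theorem ns_norm_mem (hsd : dualOf K = K) {h : Fin N → ℝ} (hpos : ∀ x ∈ K, x ≠ 0 → 0 < h ⬝ᵥ x)
    {g z : Fin N → ℝ} (hz : z ∈ K) (hz0 : z ≠ 0) (hgz : g ⬝ᵥ z = 0) :
    (h ⬝ᵥ z)⁻¹ • z ∈ slice (perpIn K g) h := by
  have hp := hpos z hz hz0
  refine ⟨⟨ns_smul_mem hsd hz (inv_nonneg.2 hp.le), ?_⟩, ?_⟩
  · rw [dotProduct_smul, hgz, smul_zero]
  · rw [dotProduct_smul, smul_eq_mul, inv_mul_cancel₀ hp.ne']

/-- the face spanned by `a` is exposed -/
theorem ns_exists_p (hsd : dualOf K = K) (a : Fin N → ℝ) :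
    ∃ p ∈ K, p ⬝ᵥ a = 0 ∧ ∀ w ∈ K, p ⬝ᵥ w = 0 → ∀ z ∈ K, z ⬝ᵥ a = 0 → z ⬝ᵥ w = 0 := by
  classical
  obtain ⟨b, hbs, hspan, hli⟩ := exists_linearIndependent ℝ {z | z ∈ K ∧ z ⬝ᵥ a = 0}
  have hfin : b.Finite := hli.setFinite
  refine ⟨∑ z ∈ hfin.toFinset, z, ?_, ?_, ?_⟩
  · exact ns_sum_mem hsd _ fun z hz => (hbs (hfin.mem_toFinset.1 hz)).1
  · rw [sum_dotProduct]
    exact Finset.sum_eq_zero fun z hz => (hbs (hfin.mem_toFinset.1 hz)).2
  · intro w hw hpw z hz hza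
    rw [sum_dotProduct] at hpw
    have h1 : ∀ z ∈ hfin.toFinset, z ⬝ᵥ w = 0 :=
      (Finset.sum_eq_zero_iff_of_nonneg fun z hz =>
        ns_nonneg hsd (hbs (hfin.mem_toFinset.1 hz)).1 hw).1 hpw
    have hzs : z ∈ Submodule.span ℝ b := by
      rw [hspan]
      exact Submodule.subset_span ⟨hz, hza⟩
    refine Submodule.span_induction (p := fun z _ => z ⬝ᵥ w = 0) ?_ ?_ ?_ ?_ hzs
    · intro x hx
      exact h1 x (hfin.mem_toFinset.2 hx)
    · exact zero_dotProduct _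
    · intro x y _ _ hx hy
      rw [add_dotProduct, hx, hy, add_zero]
    · intro c x _ hx
      rw [smul_dotProduct, hx, smul_zero]

theorem NS_slice {k : ℕ} {h : Fin N → ℝ} (hK : GoodCone k K)
    (hpos : ∀ x ∈ K, x ≠ 0 → 0 < h ⬝ᵥ x) : NS (Face (slice K h)) := by
  have hsd := hK.selfdual
  obtain ⟨a, ha, r, hr, y, hy, huniq, har, hay, hry⟩ := hK.witness
  have ha0 : a ≠ 0 := by
    rintro rfl
    rw [zero_dotProduct] at har
    exact lt_irrefl _ har
  have hy0 : y ≠ 0 := by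
    rintro rfl
    rw [dotProduct_zero] at hay
    exact lt_irrefl _ hay
  have hha := hpos a ha ha0
  obtain ⟨p, hp, hpa, hpw⟩ := ns_exists_p hsd a
  have hexp : ∀ g ∈ K, IsExposed ℝ (slice K h) (slice (perpIn K g) h) := by
    intro g hg hne
    exact (exposed_slice_iff' hsd hpos _ hne).2 ⟨g, hg, rfl⟩ hne
  have hempty : IsExposed ℝ (slice K h) (∅ : Set (Fin N → ℝ)) :=
    fun ⟨_, hx⟩ => hx.elim
  have haX : (h ⬝ᵥ a)⁻¹ • a ∈ slice (perpIn K p) h := ns_norm_mem hsd hpos ha ha0 hpa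
  have hXeq : ∀ x ∈ slice (perpIn K p) h, ∃ t : ℝ, x = t • a := by
    rintro x ⟨⟨hxK, hpx⟩, -⟩
    exact huniq x hxK fun z hz hza => hpw x hxK hpx z hz hza
  have haa : 0 < a ⬝ᵥ a := by
    rcases (ns_nonneg hsd ha ha).lt_or_eq with h1 | h1
    · exact h1
    · exact absurd (dotProduct_self_eq_zero.1 h1.symm) ha0
  -- faces below `X` and a face not containing `a` are empty
  have hbelow : ∀ g : Fin N → ℝ, ∀ hg : g ∈ K, g ⬝ᵥ a ≠ 0 → ∀ W : Face (slice K h),
      W ≤ ⟨slice (perpIn K p) h, hexp p hp⟩ → W ≤ ⟨slice (perpIn K g) h, hexp g hg⟩ →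
      ∀ V : Face (slice K h), W ≤ V := by
    intro g hg hga W hWX hWY V x hx
    exfalso
    have h1 : x ∈ slice (perpIn K p) h := hWX hx
    have h2 : x ∈ slice (perpIn K g) h := hWY hx
    obtain ⟨t, rfl⟩ := hXeq x h1
    have h3 := h2.1.2
    rw [dotProduct_smul, smul_eq_mul, mul_eq_zero] at h3
    rcases h3 with h3 | h3
    · have h4 := h2.2
      rw [h3, zero_smul, dotProduct_zero] at h4
      exact zero_ne_one h4
    · exact hga h3
  refine ⟨⟨slice (perpIn K p) h, hexp p hp⟩, ⟨slice (perpIn K a) h, hexp a ha⟩,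
    ⟨slice (perpIn K r) h, hexp r hr⟩, ⟨⟨∅, hempty⟩, fun hle => ?_⟩, hbelow a ha haa.ne',
    hbelow r hr (by rw [dotProduct_comm]; exact har.ne'), ?_⟩
  · have h1 : slice (perpIn K p) h ⊆ ∅ := hle
    exact h1 haX
  · intro W hYW hZW V
    have hyZ : (h ⬝ᵥ y)⁻¹ • y ∈ slice (perpIn K r) h := ns_norm_mem hsd hpos hy hy0 hry
    have hyW : (h ⬝ᵥ y)⁻¹ • y ∈ W.1 := hZW hyZ
    obtain ⟨g, hg, hWg⟩ := (exposed_slice_iff' hsd hpos W.1 ⟨_, hyW⟩).1 W.2
    have hga : ∃ t : ℝ, g = t • a := by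
      refine huniq g hg fun z hz hza => ?_
      by_cases hz0 : z = 0
      · rw [hz0, zero_dotProduct]
      have h1 : (h ⬝ᵥ z)⁻¹ • z ∈ W.1 := hYW (ns_norm_mem hsd hpos hz hz0
        (by rw [dotProduct_comm]; exact hza))
      rw [hWg] at h1
      have h2 := h1.1.2
      rw [dotProduct_smul, smul_eq_mul, mul_eq_zero] at h2
      rcases h2 with h2 | h2
      · exact absurd h2 (inv_ne_zero (hpos z hz hz0).ne')
      · rw [dotProduct_comm]; exact h2
    obtain ⟨t, rfl⟩ := hga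
    have ht : t = 0 := by
      rw [hWg] at hyW
      have h2 := hyW.1.2
      rw [dotProduct_smul, smul_eq_mul, mul_eq_zero] at h2
      rcases h2 with h2 | h2
      · exact absurd h2 (inv_ne_zero (hpos y hy hy0).ne')
      · rw [smul_dotProduct, smul_eq_mul, mul_eq_zero] at h2
        rcases h2 with h2 | h2
        · exact h2
        · exact absurd h2 hay.ne'
    intro x hx
    have hxP : x ∈ slice K h := V.2.subset hx
    change x ∈ W.1
    rw [hWg, ht, zero_smul]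
    exact ⟨⟨hxP.1, zero_dotProduct _⟩, hxP.2⟩

theorem not_combIso_slice {k : ℕ} {h : Fin N → ℝ} (hK : GoodCone k K) (_hh : h ∈ K)
    (hpos : ∀ x ∈ K, x ≠ 0 → 0 < h ⬝ᵥ x) {M : ℕ} {Q : Set (Fin M → ℝ)} (hQ : IsSimplex Q) :
    ¬ CombIso (slice K h) Q := by
  rintro ⟨e⟩
  obtain ⟨m, v, hv, rfl⟩ := hQ
  exact not_NS_simplex hv ((NS_slice hK hpos).of_orderIso e)

end cone

end Pool.Agent.Helper1.SD
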